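import Pool.Agent.H.MP_62a15f_an.F

open MeasureTheory Filter Topology Set
open scoped ENNReal ComplexOrder

namespace Pool.Agent.Results.MP_62a15f_an.Gap

/-- bounded operators -/
abbrev Op (E : Type) [NormedAddCommGroup E] [NormedSpace ℂ E] := E →L[ℂ] E

section
variable {E : Type} [NormedAddCommGroup E] [NormedSpace ℂ E]

def app (T : Op E) (f : E) : E := T f

/-- contraction semigroup -/
def Contr (U : ℝ → Op E) : Prop :=
  (∀ f, app (U 0) f = f) ∧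
  (∀ s t f, 0 ≤ s → 0 ≤ t → app (U (s + t)) f = app (U s) (app (U t) f)) ∧
  ∀ t f, 0 ≤ t → ‖app (U t) f‖ ≤ ‖f‖

def StrCont (U : ℝ → Op E) : Prop := ∀ f, ContinuousOn (fun t => app (U t) f) (Ici 0)

/-- `u ∈ D(T)` and `T u = h`, for the generator `T` -/
def Gen (U : ℝ → Op E) (u h : E) : Prop :=
  Tendsto (fun t : ℝ => (t : ℂ)⁻¹ • (app (U t) u - u)) (𝓝[>] 0) (𝓝 h)

/-- `R = (l - T)⁻¹` -/
def IsRes (U : ℝ → Op E) (l : ℂ) (R : Op E) : Prop :=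
  (∀ g, Gen U (app R g) (l • app R g - g)) ∧ ∀ u h, Gen U u h → app R (l • u - h) = u

noncomputable def rad (B : Op E) : ℝ≥0∞ := spectralRadius ℂ B
end

section
variable {H : Type} [NormedAddCommGroup H] [InnerProductSpace ℂ H]

def Symm (U : ℝ → Op H) : Prop :=
  ∀ t f g, 0 ≤ t → inner ℂ (app (U t) f) g = inner ℂ f (app (U t) g)

/-- the closed form of the semigroup (value `∞` outside the form domain) -/
noncomputable def form (U : ℝ → Op H) (f : H) : ℝ≥0∞ :=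
  ⨆ (t : ℝ) (_ : 0 < t), ENNReal.ofReal (t⁻¹ * (inner ℂ f (f - app (U t) f)).re)
end

/-- complex `L^p(ℝ)` for Lebesgue measure -/
noncomputable abbrev L (p : ℝ≥0∞) := Lp ℂ p (volume : Measure ℝ)

noncomputable def fn {p : ℝ≥0∞} (f : L p) : ℝ → ℂ := f

abbrev Fam := ∀ (p : ℝ≥0∞) [Fact (1 ≤ p)], ℝ → Op (L p)

def Consistent (U : Fam) : Prop :=
  ∀ (p q : ℝ≥0∞) [Fact (1 ≤ p)] [Fact (1 ≤ q)] (t : ℝ) (f : L p) (g : L q), 0 ≤ t →
    fn f =ᵐ[volume] fn g → fn (app (U p t) f) =ᵐ[volume] fn (app (U q t) g)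

def Pos (U : Fam) : Prop :=
  ∀ (p : ℝ≥0∞) [Fact (1 ≤ p)] (t : ℝ) (f : L p), 0 ≤ t →
    (∀ᵐ x, 0 ≤ fn f x) → ∀ᵐ x, 0 ≤ fn (app (U p t) f) x

/-- symmetric sub-Markovian semigroup, given as a consistent family on all `L^p` -/
def SymSubMarkov (U : Fam) : Prop :=
  Consistent U ∧ Pos U ∧ (∀ (p : ℝ≥0∞) [Fact (1 ≤ p)], Contr (U p) ∧ (p ≠ ∞ → StrCont (U p))) ∧
    Symm (U 2)

/-- `D(T) ⊆ D(V)` in `L¹` -/
def TBounded (U : Fam) (V : ℝ → ℝ) : Prop :=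
  ∀ u h, Gen (U 1) u h → Integrable (fun x => (V x : ℂ) * fn u x)

/-- `B = V R` -/
def IsMul (V : ℝ → ℝ) (R B : Op (L 1)) : Prop :=
  ∀ g, fn (app B g) =ᵐ[volume] fun x => (V x : ℂ) * fn (app R g) x

/-- the admissible constants in the definition of the form bound -/
def bounds (U : Fam) (V : ℝ → ℝ) : Set ℝ :=
  {a | 0 ≤ a ∧ ∃ b : ℝ, 0 ≤ b ∧ ∀ f : L 2, form (U 2) f ≠ ∞ →
    ∫⁻ x, ENNReal.ofReal (V x) * ‖fn f x‖ₑ ^ 2 ≤
      ENNReal.ofReal a * form (U 2) f + ENNReal.ofReal (b * ‖f‖ ^ 2)}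

theorem result : ∃ (U : Fam) (V : ℝ → ℝ),
    SymSubMarkov U ∧ Measurable V ∧ (∀ x, 0 ≤ V x) ∧ TBounded U V ∧
    (∀ l : ℝ, 0 < l → ∃ R B : Op (L 1), IsRes (U 1) l R ∧ IsMul V R B ∧ rad B = 3 / 5) ∧
    (1 / 2 : ℝ) ∈ bounds U V ∧ sInf (bounds U V) ≤ 1 / 2 := by
  have h12 : (1 / 2 : ℝ) ∈ bounds H.MP_62a15f_an.U (fun x => 3 * H.MP_62a15f_an.w x) :=
    ⟨by norm_num, 0, le_rfl, fun f _ => le_add_right (H.MP_62a15f_an.form_le f fun t ht =>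
      le_iSup₂_of_le (f := fun (t : ℝ) (_ : 0 < t) =>
        ENNReal.ofReal (t⁻¹ * (inner ℂ f (f - H.MP_62a15f_an.U 2 t f)).re)) t ht le_rfl)⟩
  have sm : ∀ (r : ℝ) (v : L 1), (r : ℂ) • v = r • v := fun r v =>
    (RCLike.real_smul_eq_coe_smul (K := ℂ) r v).symm
  have hG : ∀ u h, Gen (H.MP_62a15f_an.U 1) u h ↔ H.MP_62a15f_an.Gen u h := fun u h => by
    unfold Gen H.MP_62a15f_an.Gen app
    simp only [← Complex.ofReal_inv, sm]
  refine ⟨H.MP_62a15f_an.U, fun x => 3 * H.MP_62a15f_an.w x, ⟨?_, ?_, fun p _ => ⟨⟨?_, ?_, ?_⟩, ?_⟩, ?_⟩,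
    H.MP_62a15f_an.w_meas.const_mul 3, fun x => by linarith [H.MP_62a15f_an.w_nonneg x],
    fun u h G => ?_, fun l hl => ?_, h12, csInf_le ⟨0, fun a ha => ha.1⟩ h12⟩
  · intro p q _ _ t f g ht h
    exact (H.MP_62a15f_an.U_ae ht f).trans
      ((H.MP_62a15f_an.op_congr h).trans (H.MP_62a15f_an.U_ae ht g).symm)
  · intro p _ t f ht hf
    filter_upwards [H.MP_62a15f_an.U_ae ht f, H.MP_62a15f_an.op_pos ht hf] with x h1 h2
    exact h2.trans_eq h1.symm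
  · intro f; rw [H.MP_62a15f_an.U_zero]; rfl
  · intro s t f hs ht; rw [H.MP_62a15f_an.U_add hs ht]; rfl
  · intro t f _
    exact (ContinuousLinearMap.le_of_opNorm_le _ (H.MP_62a15f_an.U_norm t) f).trans_eq (one_mul _)
  · intro hp f; exact H.MP_62a15f_an.U_cont hp f
  · intro t f g ht
    exact (ContinuousLinearMap.isSelfAdjoint_iff_isSymmetric.1 (H.MP_62a15f_an.U_sa ht)) f g
  · refine ((H.MP_62a15f_an.intw0 (Lp.aestronglyMeasurable u)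
      (H.MP_62a15f_an.dom ((hG u h).1 G))).const_mul 3).congr (ae_of_all _ fun x => ?_)
    unfold fn; push_cast; ring
  · obtain ⟨R, B, h1, h2, h3, h4⟩ := H.MP_62a15f_an.resolvent hl
    refine ⟨R, B, ⟨fun g => (hG _ _).2 ?_, fun u h G => ?_⟩, h3, h4⟩
    · rw [sm]; exact h1 g
    · rw [sm]; exact h2 u h ((hG u h).1 G)

end Pool.Agent.Results.MP_62a15f_an.Gap
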